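import Pool.Agent.KS6_70.MM.Defs
set_option autoImplicit false

namespace Pool.Agent.KS6_70.MM

variable {C : Type}

theorem isPath_unique {A : Arena C} : ∀ {p : List A.Edge} {u v w : A.V},
    A.IsPath u p v → A.IsPath u p w → v = w
  | [], u, v, w, h1, h2 => by
      simp only [Arena.IsPath] at h1 h2
      exact h1.symm.trans h2
  | e :: p, u, v, w, h1, h2 => isPath_unique h1.2.2 h2.2.2

theorem isPath_snoc {A : Arena C} : ∀ {p : List A.Edge} {u v : A.V} {e : A.Edge},
    A.IsPath u p v → e ∈ A.E → e.1 = v → A.IsPath u (p ++ [e]) e.2.2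
  | [], u, v, e, h1, h2, h3 => by
      simp only [Arena.IsPath] at h1
      simp only [List.nil_append, Arena.IsPath]
      exact ⟨h2, h3.trans h1.symm, trivial⟩
  | f :: p, u, v, e, h1, h2, h3 => ⟨h1.1, h1.2.1, isPath_snoc h1.2.2 h2 h3⟩

theorem isPath_append {A : Arena C} : ∀ {p q : List A.Edge} {u v w : A.V},
    A.IsPath u p v → A.IsPath v q w → A.IsPath u (p ++ q) w
  | [], q, u, v, w, h1, h2 => by
      simp only [Arena.IsPath] at h1
      subst h1
      exact h2
  | f :: p, q, u, v, w, h1, h2 => ⟨h1.1, h1.2.1, isPath_append h1.2.2 h2⟩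

theorem play_path {A : Arena C} {S : Strategy A} {u : A.V} {e : ℕ → A.Edge} (h : S.Play u e) :
    ∀ t, A.IsPath u ((List.range t).map e) (e t).1
  | 0 => by
      simp only [List.range_zero, List.map_nil, Arena.IsPath]
      exact h.1.symm
  | t + 1 => by
      rw [List.range_succ, List.map_append, h.2.2.1 t]
      exact isPath_snoc (play_path h t) (h.2.1 t) rfl

theorem exists_play {A : Arena C} (S : Strategy A) (u : A.V) (Inv : List A.Edge → A.V → Prop)
    (h0 : Inv [] u)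
    (hP : ∀ h v, A.IsPath u h v → Inv h v → v ∈ A.P →
      Inv (h ++ [S.move u h]) (S.move u h).2.2)
    (hA : ∀ h v, A.IsPath u h v → Inv h v → v ∉ A.P →
      ∃ e : A.Edge, e ∈ A.E ∧ e.1 = v ∧ Inv (h ++ [e]) e.2.2) :
    ∃ e : ℕ → A.Edge, S.Play u e ∧ ∀ t, Inv ((List.range t).map e) (e t).1 := by
  classical
  let H := {x : List A.Edge × A.V // A.IsPath u x.1 x.2 ∧ Inv x.1 x.2}
  have step : ∀ x : H, ∃ e : A.Edge, e ∈ A.E ∧ e.1 = x.1.2 ∧
      (x.1.2 ∈ A.P → e = S.move u x.1.1) ∧ Inv (x.1.1 ++ [e]) e.2.2 := by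
    rintro ⟨⟨h, v⟩, hp, hi⟩
    by_cases hv : v ∈ A.P
    · obtain ⟨h1, h2⟩ := S.valid u h v hp hv
      exact ⟨S.move u h, h1, h2, fun _ => rfl, hP h v hp hi hv⟩
    · obtain ⟨e, h1, h2, h3⟩ := hA h v hp hi hv
      exact ⟨e, h1, h2, fun h => absurd h hv, h3⟩
  choose nx hE hsrc hmv hinv using step
  let sq : ℕ → H := fun t => Nat.rec ⟨([], u), rfl, h0⟩
    (fun _ x => ⟨(x.1.1 ++ [nx x], (nx x).2.2),
      isPath_snoc x.2.1 (hE x) (hsrc x), hinv x⟩) t
  let e : ℕ → A.Edge := fun t => nx (sq t)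
  have hs : ∀ t, (sq t).1.1 = (List.range t).map e := by
    intro t
    induction t with
    | zero => rfl
    | succ t ih =>
      rw [List.range_succ, List.map_append, ← ih]
      rfl
  have hsr : ∀ t, (e t).1 = (sq t).1.2 := fun t => hsrc (sq t)
  refine ⟨e, ⟨hsrc (sq 0), fun i => hE (sq i), fun i => hsrc (sq (i + 1)), fun i hi => ?_⟩, ?_⟩
  · rw [← hs]
    exact hmv (sq i) (by rw [← hsr]; exact hi)
  · intro t
    rw [← hs, hsr]
    exact (sq t).2.2

/-- endpoint of a path -/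
def endpt {A : Arena C} (u : A.V) (p : List A.Edge) : A.V := p.foldl (fun _ e => e.2.2) u

theorem endpt_eq {A : Arena C} : ∀ {p : List A.Edge} {u v : A.V}, A.IsPath u p v → endpt u p = v
  | [], u, v, h => by simpa [Arena.IsPath, endpt] using h
  | e :: p, u, v, h => by
      have := endpt_eq h.2.2
      simpa [endpt] using this

/-- the strategy given by a memory structure and a choice function -/
def stratOf {A : Arena C} {M : Type} (m : MemStr A M) (ch : A.V → M → A.Edge)
    (hch : ∀ v x, ch v x ∈ A.E ∧ (ch v x).1 = v) : Strategy A where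
  move u p := ch (endpt u p) (m.run p)
  valid u p v hp _ := by
    rw [endpt_eq hp]
    exact hch v _

theorem stratOf_builtOn {A : Arena C} {M : Type} (m : MemStr A M) (ch : A.V → M → A.Edge)
    (hch : ∀ v x, ch v x ∈ A.E ∧ (ch v x).1 = v) : (stratOf m ch hch).BuiltOn m := by
  intro u₁ u₂ p₁ p₂ v h1 h2 _ hm
  simp only [stratOf]
  rw [endpt_eq h1, endpt_eq h2, hm]

theorem play_stratOf {A : Arena C} {M : Type} {m : MemStr A M} {ch : A.V → M → A.Edge}
    {hch : ∀ v x, ch v x ∈ A.E ∧ (ch v x).1 = v} {u : A.V} {e : ℕ → A.Edge}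
    (h : (stratOf m ch hch).Play u e) (t : ℕ) (ht : (e t).1 ∈ A.P) :
    e t = ch (e t).1 (m.run ((List.range t).map e)) := by
  have := h.2.2.2 t ht
  simp only [stratOf] at this
  rw [endpt_eq (play_path h t)] at this
  exact this

theorem run_succ {A : Arena C} {M : Type} (m : MemStr A M) (e : ℕ → A.Edge) (t : ℕ) :
    m.run ((List.range (t + 1)).map e) = m.upd (m.run ((List.range t).map e)) (e t) := by
  rw [List.range_succ, List.map_append, MemStr.run, List.foldl_append]
  rfl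

theorem genOK_one {W : Set (ℕ → C)} (h : GenOK W 1) : ChrOK W 1 := by
  intro A
  obtain ⟨m, S, h1, h2⟩ := h A
  exact ⟨m, S, fun x e f _ _ _ => Subsingleton.elim _ _, h1, h2⟩

theorem chrMem_top {W : Set (ℕ → C)} (h : ∀ k, 1 ≤ k → ¬ ChrOK W k) : ChrMem W = ⊤ := by
  have : {k : ℕ∞ | ∃ n : ℕ, 1 ≤ n ∧ ChrOK W n ∧ k = n} = ∅ := by
    ext k
    simp only [Set.mem_ofPred_eq, Set.mem_empty_iff_false, iff_false]
    rintro ⟨n, h1, h2, -⟩
    exact h n h1 h2
  rw [ChrMem, this, sInf_empty]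

theorem genMem_le {W : Set (ℕ → C)} {n : ℕ} (h1 : 1 ≤ n) (h : GenOK W n) : GenMem W ≤ n :=
  sInf_le ⟨n, h1, h, rfl⟩

theorem genMem_two {W : Set (ℕ → C)} (h : GenOK W 2) (h1 : ¬ ChrOK W 1) : GenMem W = 2 := by
  apply le_antisymm (genMem_le (by norm_num) h)
  apply le_sInf
  rintro k ⟨n, hn, hg, rfl⟩
  rcases Nat.lt_or_ge n 2 with h2 | h2
  · have : n = 1 := by omega
    subst this
    exact absurd (genOK_one hg) h1
  · exact_mod_cast h2

theorem iterate_aux {k : ℕ} (f : Fin k → Fin k) (x : Fin k) {a : ℕ} (ha : k ≤ a) (c : ℕ) :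
    f^[a + k.factorial * c] x = f^[a] x := by
  -- pigeonhole
  obtain ⟨i, hi, j, hj, hij, he⟩ : ∃ i ∈ Finset.range (k + 1), ∃ j ∈ Finset.range (k + 1),
      i ≠ j ∧ f^[i] x = f^[j] x := by
    apply Finset.exists_ne_map_eq_of_card_lt_of_maps_to (t := Finset.univ)
    · simp
    · intro _ _
      simp
  simp only [Finset.mem_range] at hi hj
  obtain ⟨i, j, hlt, hj, he⟩ : ∃ i j, i < j ∧ j ≤ k ∧ f^[i] x = f^[j] x := by
    rcases lt_or_gt_of_ne hij with h | h
    · exact ⟨i, j, h, by omega, he⟩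
    · exact ⟨j, i, h, by omega, he.symm⟩
  have hper : ∀ n, i ≤ n → f^[n + (j - i)] x = f^[n] x := by
    intro n hn
    obtain ⟨m, rfl⟩ := Nat.exists_eq_add_of_le hn
    have e1 : i + m + (j - i) = m + j := by omega
    rw [e1, Function.iterate_add_apply, ← he, ← Function.iterate_add_apply, add_comm m i]
  have hper2 : ∀ c n, i ≤ n → f^[n + (j - i) * c] x = f^[n] x := by
    intro c
    induction c with
    | zero => intro n _; simp
    | succ c ih =>
      intro n hn
      rw [Nat.mul_succ, ← add_assoc, hper _ (by omega), ih n hn]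
  have hdvd : (j - i) ∣ k.factorial := Nat.dvd_factorial (by omega) (by omega)
  obtain ⟨d, hd⟩ := hdvd
  rw [hd, mul_assoc, hper2 _ _ (by omega)]

end Pool.Agent.KS6_70.MM
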