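import Pool.Agent.KS6_70.MM.Bound
set_option autoImplicit false

/-! # A fork: two words, one node of Protagonist, two continuations

An arena in which only one node has more than one outgoing edge. Reading either of two words
leads to that node, where one of two words has to be chosen. -/

namespace Pool.Agent.KS6_70.MM

variable {C : Type}

/-- counter value after a finite word -/
def stw (op : C → ℕ → ℕ) (q : ℕ) (l : List C) : ℕ := l.foldl (fun n c => op c n) q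

theorem stw_cons (op : C → ℕ → ℕ) (q : ℕ) (c : C) (l : List C) :
    stw op q (c :: l) = stw op (op c q) l := rfl

theorem stw_append (op : C → ℕ → ℕ) (q : ℕ) (l l' : List C) :
    stw op q (l ++ l') = stw op (stw op q l) l' := by
  rw [stw, stw, stw, List.foldl_append]

theorem st_eq (op : C → ℕ → ℕ) {A : Arena C} (q : ℕ) (p : List A.Edge) :
    st op q p = stw op q (p.map fun e => e.2.1) := by
  rw [st, stw, List.foldl_map]

/-- nodes of the arena: a flag and the word still to be read -/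
abbrev ForkV (L : ℕ) : Type := Bool × {l : List Bool // l.length ≤ L}

/-- the edges of the arena -/
def forkE (φ : Bool → C) (z₁ z₂ : List Bool) (L : ℕ) : Set (ForkV L × C × ForkV L) :=
  {e | (∃ b, e.1.2.1 = b :: e.2.2.2.1 ∧ e.2.1 = φ b ∧ e.2.2.1 = e.1.1) ∨
    (e.1.2.1 = [] ∧ e.1.1 = false ∧ e.2.1 = φ false ∧ e.2.2.1 = true ∧
      (e.2.2.2.1 = z₁ ∨ e.2.2.2.1 = z₂)) ∨
    (e.1.2.1 = [] ∧ e.1.1 = true ∧ e.2.1 = φ true ∧ e.2.2.1 = true ∧ e.2.2.2.1 = [])}

/-- the arena: nodes `(b, w)` where the word `w` has to be read; at `(false, [])` Protagonist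
chooses between `z₁` and `z₂`; at `(true, [])` there is a loop of colour `φ true`. -/
def fork (φ : Bool → C) (z₁ z₂ : List Bool) (L : ℕ) (h₁ : z₁.length ≤ L) : Arena C where
  V := ForkV L
  finV := by
    have : Finite {l : List Bool // l.length ≤ L} := (List.finite_length_le Bool L).to_subtype
    infer_instance
  neV := ⟨(false, ⟨[], by simp⟩)⟩
  P := {x | x.1 = false ∧ x.2.1 = []}
  E := forkE φ z₁ z₂ L
  finE := by
    have : Finite {l : List Bool // l.length ≤ L} := (List.finite_length_le Bool L).to_subtype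
    refine Set.Finite.subset (s := Set.univ ×ˢ (Set.range φ ×ˢ Set.univ)) ?_ ?_
    · exact Set.finite_univ.prod ((Set.finite_range φ).prod Set.finite_univ)
    · rintro ⟨x, c, y⟩ h
      simp only [Set.mem_prod, Set.mem_univ, true_and, and_true]
      rcases h with ⟨b, _, h, _⟩ | ⟨_, _, h, _⟩ | ⟨_, _, h, _⟩
      · exact ⟨b, h.symm⟩
      · exact ⟨false, h.symm⟩
      · exact ⟨true, h.symm⟩
  out := by
    rintro ⟨b, l, hl⟩
    cases l with
    | cons c l =>
      refine ⟨φ c, (b, ⟨l, ?_⟩), Or.inl ⟨c, rfl, rfl, rfl⟩⟩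
      simp only [List.length_cons] at hl
      omega
    | nil =>
      cases b with
      | false => exact ⟨φ false, (true, ⟨z₁, h₁⟩), Or.inr (Or.inl ⟨rfl, rfl, rfl, rfl, Or.inl rfl⟩)⟩
      | true => exact ⟨φ true, (true, ⟨[], by simp⟩), Or.inr (Or.inr ⟨rfl, rfl, rfl, rfl, rfl⟩)⟩

theorem chromatic_fun {A : Arena C} {M : Type} {m : MemStr A M} (hm : m.Chromatic) :
    ∃ f : C → M → M, ∀ x, ∀ e ∈ A.E, m.upd x e = f e.2.1 x := by
  classical
  refine ⟨fun c x => if h : ∃ e ∈ A.E, e.2.1 = c then m.upd x h.choose else x, ?_⟩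
  intro x e he
  have h : ∃ e' ∈ A.E, e'.2.1 = e.2.1 := ⟨e, he, rfl⟩
  simp only [dif_pos h]
  exact hm x e _ he h.choose_spec.1 h.choose_spec.2.symm

theorem run_chromatic {A : Arena C} {M : Type} {m : MemStr A M} {f : C → M → M}
    (hf : ∀ x, ∀ e ∈ A.E, m.upd x e = f e.2.1 x) : ∀ (p : List A.Edge) (u v : A.V) (x : M),
    A.IsPath u p v → p.foldl m.upd x = (p.map fun e => e.2.1).foldl (fun x c => f c x) x
  | [], _, _, _, _ => rfl
  | e :: p, _, v, x, h => by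
      rw [List.foldl_cons, List.map_cons, List.foldl_cons, hf x e h.1]
      exact run_chromatic hf p _ v _ h.2.2

section
variable {φ : Bool → C} {z₁ z₂ : List Bool} {L : ℕ} {h₁ : z₁.length ≤ L}

/-- the colours of the first `t` edges -/
def cols {A : Arena C} (e : ℕ → A.Edge) (t : ℕ) : List C :=
  ((List.range t).map e).map fun x => x.2.1

theorem cols_succ {A : Arena C} (e : ℕ → A.Edge) (t : ℕ) :
    cols e (t + 1) = cols e t ++ [(e t).2.1] := by
  rw [cols, cols, List.range_succ, List.map_append, List.map_append]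
  rfl

/-- reading the word of a node -/
theorem fork_read {e : ℕ → (fork φ z₁ z₂ L h₁).Edge} (hE : ∀ i, e i ∈ (fork φ z₁ z₂ L h₁).E)
    (hc : ∀ i, (e (i + 1)).1 = (e i).2.2) : ∀ (l : List Bool) (t : ℕ), (e t).1.2.1 = l →
      (e (t + l.length)).1.1 = (e t).1.1 ∧ (e (t + l.length)).1.2.1 = [] ∧
      cols e (t + l.length) = cols e t ++ l.map φ := by
  intro l
  induction l with
  | nil => intro t h; exact ⟨rfl, h, by simp⟩
  | cons b l ih =>
    intro t h
    rcases hE t with ⟨b', hb, hcol, hf⟩ | ⟨hb, _⟩ | ⟨hb, _⟩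
    · rw [h, List.cons.injEq] at hb
      obtain ⟨rfl, hb⟩ := hb
      have h1 : (e (t + 1)).1.2.1 = l := by rw [hc]; exact hb.symm
      obtain ⟨i1, i2, i3⟩ := ih (t + 1) h1
      have h6 : t + (b :: l).length = t + 1 + l.length := by
        simp only [List.length_cons]
        omega
      rw [h6]
      refine ⟨?_, i2, ?_⟩
      · rw [i1, hc]; exact hf
      · rw [i3, cols_succ, hcol]
        simp
    · rw [h] at hb
      exact absurd hb (by simp)
    · rw [h] at hb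
      exact absurd hb (by simp)

/-- the loop at the end -/
theorem fork_loop {e : ℕ → (fork φ z₁ z₂ L h₁).Edge} (hE : ∀ i, e i ∈ (fork φ z₁ z₂ L h₁).E)
    (hc : ∀ i, (e (i + 1)).1 = (e i).2.2) (t : ℕ) (h1 : (e t).1.1 = true)
    (h2 : (e t).1.2.1 = []) : ∀ s, (e (t + s)).1.1 = true ∧ (e (t + s)).1.2.1 = [] ∧
      (e (t + s)).2.1 = φ true := by
  have key : ∀ s, (e s).1.1 = true → (e s).1.2.1 = [] → (e s).2.1 = φ true ∧
      (e (s + 1)).1.1 = true ∧ (e (s + 1)).1.2.1 = [] := by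
    intro s k1 k2
    rcases hE s with ⟨b', hb, _⟩ | ⟨_, hb, _⟩ | ⟨_, _, hb, hb2, hb3⟩
    · rw [k2] at hb
      exact absurd hb (by simp)
    · rw [k1] at hb
      exact absurd hb (by simp)
    · rw [hc]
      exact ⟨hb, hb2, hb3⟩
  intro s
  induction s with
  | zero => exact ⟨h1, h2, (key t h1 h2).1⟩
  | succ s ih =>
    have h3 := key _ ih.1 ih.2.1
    have h4 : t + (s + 1) = t + s + 1 := rfl
    rw [h4]
    exact ⟨h3.2.1, h3.2.2, (key _ h3.2.1 h3.2.2).1⟩

theorem run_zero_of_le {op : C → ℕ → ℕ} (h0 : ∀ c, op c 0 = 0) {w : ℕ → C} {q s : ℕ}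
    (h : runFrom op q w s = 0) : ∀ t, s ≤ t → runFrom op q w t = 0 := by
  intro t ht
  induction ht with
  | refl => exact h
  | @step t _ ih => 
    change op (w t) (runFrom op q w t) = 0
    rw [ih, h0]

theorem run_cols (op : C → ℕ → ℕ) {A : Arena C} (q : ℕ) (e : ℕ → A.Edge) (t : ℕ) :
    runFrom op q (fun i => (e i).2.1) t = stw op q (cols e t) := by
  rw [← st_prefix, st_eq, cols]

/-- the end of the play after the choice -/
theorem fork_end (op : C → ℕ → ℕ) (h0 : ∀ c, op c 0 = 0)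
    (hup : ∀ n, 3 ≤ n → 3 ≤ op (φ true) n) {e : ℕ → (fork φ z₁ z₂ L h₁).Edge}
    (hE : ∀ i, e i ∈ (fork φ z₁ z₂ L h₁).E) (hc : ∀ i, (e (i + 1)).1 = (e i).2.2)
    {w z : List Bool} {t : ℕ} (hw : cols e t = w.map φ) (hcol : (e t).2.1 = φ false)
    (hfl : (e t).2.2.1 = true) (hz : (e t).2.2.2.1 = z) {F : ℕ}
    (hF : stw op 1 (w.map φ ++ φ false :: z.map φ) = F) (d : F = 0 ∨ 3 ≤ F) :
    (fun i => (e i).2.1) ∈ safeW op ↔ F ≠ 0 := by
  have a1 : (e (t + 1)).1.2.1 = z := by rw [hc]; exact hz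
  have a2 : (e (t + 1)).1.1 = true := by rw [hc]; exact hfl
  obtain ⟨b1, b2, b3⟩ := fork_read hE hc z (t + 1) a1
  rw [a2] at b1
  set T := t + 1 + z.length with hT
  have hr : runFrom op 1 (fun i => (e i).2.1) T = F := by
    rw [run_cols, b3, cols_succ, hw, hcol, ← hF]
    congr 1
    simp
  constructor
  · intro h
    rw [← hr]
    exact h T
  · intro hne
    have hge : 3 ≤ F := by omega
    have hlate : ∀ s, 3 ≤ runFrom op 1 (fun i => (e i).2.1) (T + s) := by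
      intro s
      induction s with
      | zero => rw [Nat.add_zero, hr]; exact hge
      | succ s ih =>
        change 3 ≤ op (e (T + s)).2.1 (runFrom op 1 (fun i => (e i).2.1) (T + s))
        rw [(fork_loop hE hc T b1 b2 s).2.2]
        exact hup _ ih
    intro s hs
    rcases Nat.le_total s T with h | h
    · have := run_zero_of_le h0 hs T h
      omega
    · have := hlate (s - T)
      rw [show T + (s - T) = s by omega] at this
      omega

/-- what happens in the fork -/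
theorem fork_outcome (op : C → ℕ → ℕ) (h0 : ∀ c, op c 0 = 0)
    (hup : ∀ n, 3 ≤ n → 3 ≤ op (φ true) n) (h₂ : z₂.length ≤ L)
    (S : Strategy (fork φ z₁ z₂ L h₁)) (w : {l : List Bool // l.length ≤ L})
    (F₁ F₂ : ℕ) (hF₁ : stw op 1 (w.1.map φ ++ φ false :: z₁.map φ) = F₁)
    (hF₂ : stw op 1 (w.1.map φ ++ φ false :: z₂.map φ) = F₂)
    (d₁ : F₁ = 0 ∨ 3 ≤ F₁) (d₂ : F₂ = 0 ∨ 3 ≤ F₂)
    (e : ℕ → (fork φ z₁ z₂ L h₁).Edge) (he : S.Play (false, w) e) :
    ∃ p : List (fork φ z₁ z₂ L h₁).Edge,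
      (fork φ z₁ z₂ L h₁).IsPath (false, w) p (false, ⟨[], by simp⟩) ∧
      (p.map fun x => x.2.1) = w.1.map φ ∧
      ((S.move (false, w) p = ((false, ⟨[], by simp⟩), φ false, (true, ⟨z₁, h₁⟩)) ∧
          ((fun i => (e i).2.1) ∈ safeW op ↔ F₁ ≠ 0)) ∨
        (S.move (false, w) p = ((false, ⟨[], by simp⟩), φ false, (true, ⟨z₂, h₂⟩)) ∧
          ((fun i => (e i).2.1) ∈ safeW op ↔ F₂ ≠ 0))) := by
  have hw0 : (e 0).1.2.1 = w.1 := by rw [he.1]
  obtain ⟨a1, a2, a3⟩ := fork_read he.2.1 he.2.2.1 w.1 0 hw0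
  rw [Nat.zero_add] at a1 a2 a3
  rw [he.1] at a1
  have a4 : cols e w.1.length = w.1.map φ := by
    rw [a3]
    rfl
  have hnode : (e w.1.length).1 = ((false, ⟨[], by simp⟩) : ForkV L) :=
    Prod.ext a1 (Subtype.ext a2)
  have hpath := play_path he w.1.length
  rw [hnode] at hpath
  have hmv : e w.1.length = S.move (false, w) ((List.range w.1.length).map e) :=
    he.2.2.2 _ ⟨a1, a2⟩
  refine ⟨(List.range w.1.length).map e, hpath, a4, ?_⟩
  rcases he.2.1 w.1.length with ⟨b, hb, _⟩ | ⟨_, _, hcol, hfl, hz⟩ | ⟨_, hb, _⟩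
  · rw [a2] at hb
    exact absurd hb (by simp)
  · rcases hz with hz | hz
    · left
      refine ⟨?_, fork_end op h0 hup he.2.1 he.2.2.1 a4 hcol hfl hz hF₁ d₁⟩
      rw [← hmv]
      exact Prod.ext hnode (Prod.ext hcol (Prod.ext hfl (Subtype.ext hz)))
    · right
      refine ⟨?_, fork_end op h0 hup he.2.1 he.2.2.1 a4 hcol hfl hz hF₂ d₂⟩
      rw [← hmv]
      exact Prod.ext hnode (Prod.ext hcol (Prod.ext hfl (Subtype.ext hz)))
  · rw [a1] at hb
    exact absurd hb (by simp)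

/-- every strategy has a play from every node -/
theorem exists_play' {A : Arena C} (S : Strategy A) (u : A.V) : ∃ e, S.Play u e := by
  obtain ⟨e, he, _⟩ := exists_play S u (fun _ _ => True) trivial (fun _ _ _ _ _ => trivial)
    (fun _ v _ _ _ => by
      obtain ⟨c, w, hw⟩ := A.out v
      exact ⟨_, hw, rfl, trivial⟩)
  exact ⟨e, he⟩

/-- the strategy which always makes the same move in the fork -/
def constS (z : List Bool) (hz : z.length ≤ L) (hzz : z = z₁ ∨ z = z₂) :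
    Strategy (fork φ z₁ z₂ L h₁) where
  move _ _ := ((false, ⟨[], by simp⟩), φ false, (true, ⟨z, hz⟩))
  valid := by
    rintro u p ⟨b, l, hl⟩ _ ⟨k1, k2⟩
    simp only at k1 k2
    subst k1 k2
    exact ⟨Or.inr (Or.inl ⟨rfl, rfl, rfl, rfl, hzz⟩), rfl⟩

theorem fork_main (op : C → ℕ → ℕ) (h0 : ∀ c, op c 0 = 0)
    (hup : ∀ n, 3 ≤ n → 3 ≤ op (φ true) n) (k : ℕ) (w₁ w₂ z₁ z₂ : List Bool)
    (hne : z₁ ≠ z₂)
    (h11 : stw op 1 (w₁.map φ ++ φ false :: z₁.map φ) = 0)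
    (h12 : 3 ≤ stw op 1 (w₁.map φ ++ φ false :: z₂.map φ))
    (h21 : 3 ≤ stw op 1 (w₂.map φ ++ φ false :: z₁.map φ))
    (h22 : stw op 1 (w₂.map φ ++ φ false :: z₂.map φ) = 0)
    (hf : ∀ (f : C → Fin k → Fin k) (x : Fin k),
      (w₁.map φ).foldl (fun x c => f c x) x = (w₂.map φ).foldl (fun x c => f c x) x) :
    ¬ ChrOK (safeW op) k ∧ ¬ ChrOK (safeW op)ᶜ k := by
  let L := w₁.length + w₂.length + z₁.length + z₂.length
  have lw₁ : w₁.length ≤ L := by simp only [L]; omega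
  have lw₂ : w₂.length ≤ L := by simp only [L]; omega
  have lz₁ : z₁.length ≤ L := by simp only [L]; omega
  have lz₂ : z₂.length ≤ L := by simp only [L]; omega
  -- the two choices of a strategy agree
  have agree : ∀ (m : MemStr (fork φ z₁ z₂ L lz₁) (Fin k)) (S : Strategy (fork φ z₁ z₂ L lz₁)),
      m.Chromatic → S.BuiltOn m → ∀ p q : List (fork φ z₁ z₂ L lz₁).Edge,
      (fork φ z₁ z₂ L lz₁).IsPath (false, ⟨w₁, lw₁⟩) p (false, ⟨[], by simp⟩) →
      (fork φ z₁ z₂ L lz₁).IsPath (false, ⟨w₂, lw₂⟩) q (false, ⟨[], by simp⟩) →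
      (p.map fun x => x.2.1) = w₁.map φ → (q.map fun x => x.2.1) = w₂.map φ →
      S.move (false, ⟨w₁, lw₁⟩) p = S.move (false, ⟨w₂, lw₂⟩) q := by
    intro m S hm hS p q hp hq hpc hqc
    obtain ⟨f, hfu⟩ := chromatic_fun hm
    refine hS _ _ p q (false, ⟨[], by simp⟩) hp hq ⟨rfl, rfl⟩ ?_
    rw [MemStr.run, MemStr.run, run_chromatic hfu p _ _ _ hp, run_chromatic hfu q _ _ _ hq,
      hpc, hqc]
    exact hf f _
  have hZ : (((false, ⟨[], by simp⟩), φ false, (true, ⟨z₁, lz₁⟩)) : (fork φ z₁ z₂ L lz₁).Edge) ≠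
      ((false, ⟨[], by simp⟩), φ false, (true, ⟨z₂, lz₂⟩)) := by
    intro h
    apply hne
    have := congrArg (fun x : (fork φ z₁ z₂ L lz₁).Edge => x.2.2.2.1) h
    exact this
  -- the positional strategies
  let S₁ : Strategy (fork φ z₁ z₂ L lz₁) := constS z₁ lz₁ (Or.inl rfl)
  let S₂ : Strategy (fork φ z₁ z₂ L lz₁) := constS z₂ lz₂ (Or.inr rfl)
  have win : ∀ (w : {l : List Bool // l.length ≤ L}) (F₁ F₂ : ℕ),
      stw op 1 (w.1.map φ ++ φ false :: z₁.map φ) = F₁ →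
      stw op 1 (w.1.map φ ++ φ false :: z₂.map φ) = F₂ → (F₁ = 0 ∨ 3 ≤ F₁) →
      (F₂ = 0 ∨ 3 ≤ F₂) →
      (∀ e : ℕ → (fork φ z₁ z₂ L lz₁).Edge, S₁.Play (false, w) e →
        ((fun i => (e i).2.1) ∈ safeW op ↔ F₁ ≠ 0)) ∧
      (∀ e : ℕ → (fork φ z₁ z₂ L lz₁).Edge, S₂.Play (false, w) e →
        ((fun i => (e i).2.1) ∈ safeW op ↔ F₂ ≠ 0)) := by
    intro w F₁ F₂ e1 e2 d1 d2
    constructor
    · intro e he
      obtain ⟨p, _, _, h | h⟩ := fork_outcome op h0 hup lz₂ _ w F₁ F₂ e1 e2 d1 d2 e he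
      · exact h.2
      · exact absurd h.1 hZ
    · intro e he
      obtain ⟨p, _, _, h | h⟩ := fork_outcome op h0 hup lz₂ _ w F₁ F₂ e1 e2 d1 d2 e he
      · exact absurd h.1.symm hZ
      · exact h.2
  obtain ⟨win11, win12⟩ := win ⟨w₁, lw₁⟩ _ _ rfl rfl (Or.inl h11) (Or.inr h12)
  obtain ⟨win21, win22⟩ := win ⟨w₂, lw₂⟩ _ _ rfl rfl (Or.inr h21) (Or.inl h22)
  constructor
  · intro hk
    obtain ⟨m, S, hm, hS, hopt⟩ := hk (fork φ z₁ z₂ L lz₁)
    obtain ⟨e₁, he₁⟩ := exists_play' S (false, ⟨w₁, lw₁⟩)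
    obtain ⟨e₂, he₂⟩ := exists_play' S (false, ⟨w₂, lw₂⟩)
    have g1 := hopt (false, ⟨w₁, lw₁⟩) ⟨_, fun e he => (win12 e he).2 (by
      change stw op 1 (w₁.map φ ++ φ false :: z₂.map φ) ≠ 0; omega)⟩ e₁ he₁
    have g2 := hopt (false, ⟨w₂, lw₂⟩) ⟨_, fun e he => (win21 e he).2 (by
      change stw op 1 (w₂.map φ ++ φ false :: z₁.map φ) ≠ 0; omega)⟩ e₂ he₂
    obtain ⟨p, hp, hpc, h⟩ := fork_outcome op h0 hup lz₂ S ⟨w₁, lw₁⟩ _ _ rfl rfl
      (Or.inl h11) (Or.inr h12) e₁ he₁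
    obtain ⟨q, hq, hqc, h'⟩ := fork_outcome op h0 hup lz₂ S ⟨w₂, lw₂⟩ _ _ rfl rfl
      (Or.inr h21) (Or.inl h22) e₂ he₂
    have hag := agree m S hm hS p q hp hq hpc hqc
    rcases h with h | h
    · exact (h.2.1 g1) h11
    · rcases h' with h' | h'
      · rw [h.1, h'.1] at hag
        exact hZ hag.symm
      · exact (h'.2.1 g2) h22
  · intro hk
    obtain ⟨m, S, hm, hS, hopt⟩ := hk (fork φ z₁ z₂ L lz₁)
    obtain ⟨e₁, he₁⟩ := exists_play' S (false, ⟨w₁, lw₁⟩)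
    obtain ⟨e₂, he₂⟩ := exists_play' S (false, ⟨w₂, lw₂⟩)
    have g1 := hopt (false, ⟨w₁, lw₁⟩) ⟨_, fun e he hs => (win11 e he).1 hs h11⟩ e₁ he₁
    have g2 := hopt (false, ⟨w₂, lw₂⟩) ⟨_, fun e he hs => (win22 e he).1 hs h22⟩ e₂ he₂
    obtain ⟨p, hp, hpc, h⟩ := fork_outcome op h0 hup lz₂ S ⟨w₁, lw₁⟩ _ _ rfl rfl
      (Or.inl h11) (Or.inr h12) e₁ he₁
    obtain ⟨q, hq, hqc, h'⟩ := fork_outcome op h0 hup lz₂ S ⟨w₂, lw₂⟩ _ _ rfl rfl
      (Or.inr h21) (Or.inl h22) e₂ he₂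
    have hag := agree m S hm hS p q hp hq hpc hqc
    rcases h with h | h
    · rcases h' with h' | h'
      · exact g2 (h'.2.2 (by change stw op 1 (w₂.map φ ++ φ false :: z₁.map φ) ≠ 0; omega))
      · rw [h.1, h'.1] at hag
        exact hZ hag
    · exact g1 (h.2.2 (by change stw op 1 (w₁.map φ ++ φ false :: z₂.map φ) ≠ 0; omega))

end

end Pool.Agent.KS6_70.MM
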