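import Pool.Agent.KS6_70.MM.Basic
set_option autoImplicit false

namespace Pool.Agent.KS6_70.MM

/-- `i = j`, or `i = 0`, or `i + 2 ≤ j` -/
def le2 (i j : ℕ) : Prop := i = j ∨ i = 0 ∨ i + 2 ≤ j

theorem le2_trans {i j k : ℕ} (h1 : le2 i j) (h2 : le2 j k) : le2 i k := by
  unfold le2 at *
  omega

theorem le2_le {i j : ℕ} (h1 : le2 i j) : i ≤ j := by
  unfold le2 at *
  omega

section
variable {C : Type}

/-- the run of the counter with operations `op` on an infinite word, from counter value `q` -/
def runFrom (op : C → ℕ → ℕ) (q : ℕ) (w : ℕ → C) : ℕ → ℕ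
  | 0 => q
  | t + 1 => op (w t) (runFrom op q w t)

/-- the words on which the run from counter value `1` never hits `0` -/
def safeW (op : C → ℕ → ℕ) : Set (ℕ → C) := {w | ∀ t, runFrom op 1 w t ≠ 0}

/-- state after a path -/
def st (op : C → ℕ → ℕ) {A : Arena C} (q : ℕ) (h : List A.Edge) : ℕ :=
  h.foldl (fun n e => op e.2.1 n) q

theorem st_prefix (op : C → ℕ → ℕ) {A : Arena C} (q : ℕ) (e : ℕ → A.Edge) (t : ℕ) :
    st op q ((List.range t).map e) = runFrom op q (fun i => (e i).2.1) t := by
  induction t with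
  | zero => rfl
  | succ t ih =>
    rw [List.range_succ, List.map_append, st, List.foldl_append]
    have : List.foldl (fun n (e : A.Edge) => op e.2.1 n) q ((List.range t).map e) =
        runFrom op q (fun i => (e i).2.1) t := ih
    rw [this]
    rfl

theorem st_snoc (op : C → ℕ → ℕ) {A : Arena C} (q : ℕ) (h : List A.Edge) (e : A.Edge) :
    st op q (h ++ [e]) = op e.2.1 (st op q h) := by
  rw [st, List.foldl_append]
  rfl

variable (op : C → ℕ → ℕ)

/-- hypotheses on the operations -/
structure Good : Prop where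
  zero : ∀ c, op c 0 = 0
  exp : ∀ c i j, 1 ≤ i → i + 2 ≤ j → op c i = 0 ∨ op c i + (j - i) ≤ op c j

variable {op} in
theorem Good.mono (hop : Good op) (c : C) {i j : ℕ} (h : le2 i j) : le2 (op c i) (op c j) := by
  rcases h with h | h | h
  · exact Or.inl (by rw [h])
  · exact Or.inr (Or.inl (by rw [h]; exact hop.zero c))
  · rcases Nat.eq_zero_or_pos i with h0 | h0
    · exact Or.inr (Or.inl (by rw [h0]; exact hop.zero c))
    · rcases hop.exp c i j h0 h with h1 | h1
      · exact Or.inr (Or.inl h1)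
      · exact Or.inr (Or.inr (by omega))

/-- the owner of the nodes in `R` can force the counter to hit `0` within `k` steps, never
exceeding `N` before -/
def Reach (A : Arena C) (R : Set A.V) (N : ℕ) : ℕ → A.V → ℕ → Prop
  | 0, _, n => n = 0
  | k + 1, v, n => n = 0 ∨ (n ≤ N ∧
      (v ∈ R → ∃ e ∈ A.E, e.1 = v ∧ Reach A R N k e.2.2 (op e.2.1 n)) ∧
      (v ∉ R → ∀ e ∈ A.E, e.1 = v → Reach A R N k e.2.2 (op e.2.1 n)))

variable {op} {A : Arena C} {R : Set A.V}

theorem reach_zero (N k : ℕ) (v : A.V) : Reach op A R N k v 0 := by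
  cases k with
  | zero => rfl
  | succ k => exact Or.inl rfl

theorem reach_mono {N N' : ℕ} (hN : N ≤ N') : ∀ {k k' : ℕ} (_ : k ≤ k') {v : A.V} {n : ℕ},
    Reach op A R N k v n → Reach op A R N' k' v n
  | 0, k', _, v, n, h => by
      simp only [Reach] at h
      subst h
      exact reach_zero _ _ _
  | k + 1, 0, hk, _, _, _ => by omega
  | k + 1, k' + 1, hk, v, n, h => by
      rcases h with h | ⟨h1, h2, h3⟩
      · exact Or.inl h
      · refine Or.inr ⟨h1.trans hN, fun hv => ?_, fun hv e he hs => ?_⟩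
        · obtain ⟨e, he, hs, hr⟩ := h2 hv
          exact ⟨e, he, hs, reach_mono hN (by omega) hr⟩
        · exact reach_mono hN (by omega) (h3 hv e he hs)

theorem reach_down (hop : Good op) {N : ℕ} : ∀ {k : ℕ} {v : A.V} {i j : ℕ} (_ : le2 i j),
    Reach op A R N k v j → Reach op A R N k v i
  | 0, v, i, j, hij, h => by
      simp only [Reach] at h ⊢
      have := le2_le hij
      omega
  | k + 1, v, i, j, hij, h => by
      have hle := le2_le hij
      rcases h with h | ⟨h1, h2, h3⟩
      · exact Or.inl (by omega)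
      · refine Or.inr ⟨by omega, fun hv => ?_, fun hv e he hs => ?_⟩
        · obtain ⟨e, he, hs, hr⟩ := h2 hv
          exact ⟨e, he, hs, reach_down hop (hop.mono _ hij) hr⟩
        · exact reach_down hop (hop.mono _ hij) (h3 hv e he hs)

variable (op A R) in
/-- the owner of the nodes in `R` can force the counter to hit `0` -/
def RA (v : A.V) (n : ℕ) : Prop := ∃ N k, Reach op A R N k v n

theorem RA_down (hop : Good op) {v : A.V} {i j : ℕ} (hij : le2 i j) (h : RA op A R v j) :
    RA op A R v i := by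
  obtain ⟨N, k, h⟩ := h
  exact ⟨N, k, reach_down hop hij h⟩

theorem RA_zero (v : A.V) : RA op A R v 0 := ⟨0, 0, rfl⟩

theorem RA_of_mem {v : A.V} {n : ℕ} (hv : v ∈ R)
    (h : ∃ e ∈ A.E, e.1 = v ∧ RA op A R e.2.2 (op e.2.1 n)) : RA op A R v n := by
  obtain ⟨e, he, hs, N, k, hr⟩ := h
  refine ⟨max N n, k + 1, Or.inr ⟨le_max_right _ _, fun _ => ⟨e, he, hs, ?_⟩,
    fun h => absurd hv h⟩⟩
  exact reach_mono (le_max_left _ _) le_rfl hr

theorem RA_of_not_mem {v : A.V} {n : ℕ} (hv : v ∉ R)
    (h : ∀ e ∈ A.E, e.1 = v → RA op A R e.2.2 (op e.2.1 n)) : RA op A R v n := by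
  classical
  have : ∀ e : A.Edge, ∃ B, e ∈ A.E → e.1 = v → Reach op A R B B e.2.2 (op e.2.1 n) := by
    intro e
    by_cases he : e ∈ A.E
    · by_cases hs : e.1 = v
      · obtain ⟨N, k, hr⟩ := h e he hs
        exact ⟨max N k, fun _ _ => reach_mono (le_max_left _ _) (le_max_right _ _) hr⟩
      · exact ⟨0, fun _ h => absurd h hs⟩
    · exact ⟨0, fun h => absurd h he⟩
  choose B hB using this
  have hle : ∀ e ∈ A.E, B e ≤ A.finE.toFinset.sup B := fun e he =>
    Finset.le_sup (f := B) (A.finE.mem_toFinset.mpr he)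
  refine ⟨max (A.finE.toFinset.sup B) n, A.finE.toFinset.sup B + 1,
    Or.inr ⟨le_max_right _ _, fun h => absurd h hv, fun _ e he hs => ?_⟩⟩
  exact reach_mono ((hle e he).trans (le_max_left _ _)) (hle e he) (hB e he hs)

theorem RA_mem {v : A.V} {n : ℕ} (hv : v ∈ R) (hn : n ≠ 0) (h : RA op A R v n) :
    ∃ e ∈ A.E, e.1 = v ∧ RA op A R e.2.2 (op e.2.1 n) := by
  obtain ⟨N, k, h⟩ := h
  cases k with
  | zero => exact absurd h hn
  | succ k =>
    rcases h with h | ⟨_, h2, _⟩
    · exact absurd h hn
    · obtain ⟨e, he, hs, hr⟩ := h2 hv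
      exact ⟨e, he, hs, N, k, hr⟩

theorem RA_not_mem {v : A.V} {n : ℕ} (hv : v ∉ R) (hn : n ≠ 0) (h : RA op A R v n) :
    ∀ e ∈ A.E, e.1 = v → RA op A R e.2.2 (op e.2.1 n) := by
  obtain ⟨N, k, h⟩ := h
  cases k with
  | zero => exact absurd h hn
  | succ k =>
    rcases h with h | ⟨_, _, h3⟩
    · exact absurd h hn
    · intro e he hs
      exact ⟨N, k, h3 hv e he hs⟩

/-- If Antagonist can force `0`, then every Protagonist strategy has a consistent play
reaching `0`. -/
theorem exists_reaching (hz : ∀ c, op c 0 = 0) {u : A.V} (h : RA op A A.Pᶜ u 1)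
    (S : Strategy A) :
    ∃ e, S.Play u e ∧ ∃ t, runFrom op 1 (fun i => (e i).2.1) t = 0 := by
  obtain ⟨N, k, h⟩ := h
  have key := exists_play S u
    (fun p v => Reach op A A.Pᶜ N (k - p.length) v (st op 1 p)) h ?_ ?_
  · obtain ⟨e, he, hinv⟩ := key
    refine ⟨e, he, k, ?_⟩
    have := hinv k
    simp only [List.length_map, List.length_range, Nat.sub_self, Reach] at this
    rw [← st_prefix]
    exact this
  · intro p v hp hi hv
    obtain ⟨h1, h2⟩ := S.valid u p v hp hv
    simp only [st_snoc, List.length_append, List.length_singleton]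
    rcases Nat.lt_or_ge p.length k with hlt | hge
    · obtain ⟨m, hm⟩ : ∃ m, k - p.length = m + 1 := ⟨k - p.length - 1, by omega⟩
      rw [hm] at hi
      have hm' : k - (p.length + 1) = m := by omega
      rw [hm']
      rcases hi with hi | ⟨_, _, h3⟩
      · rw [hi, hz]
        exact reach_zero _ _ _
      · exact h3 (fun h => h hv) _ h1 h2
    · have hm : k - p.length = 0 := by omega
      rw [hm] at hi
      simp only [Reach] at hi
      rw [hi, hz]
      exact reach_zero _ _ _
  · intro p v hp hi hv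
    simp only [st_snoc, List.length_append, List.length_singleton]
    rcases Nat.lt_or_ge p.length k with hlt | hge
    · obtain ⟨m, hm⟩ : ∃ m, k - p.length = m + 1 := ⟨k - p.length - 1, by omega⟩
      rw [hm] at hi
      have hm' : k - (p.length + 1) = m := by omega
      rw [hm']
      rcases hi with hi | ⟨_, h2, _⟩
      · rw [hi]
        obtain ⟨c, w, hw⟩ := A.out v
        refine ⟨_, hw, rfl, ?_⟩
        rw [hz]
        exact reach_zero _ _ _
      · exact h2 hv
    · have hm : k - p.length = 0 := by omega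
      rw [hm] at hi
      simp only [Reach] at hi
      rw [hi]
      obtain ⟨c, w, hw⟩ := A.out v
      refine ⟨_, hw, rfl, ?_⟩
      rw [hz]
      exact reach_zero _ _ _

/-- If Protagonist cannot force `0`, then every Protagonist strategy has a consistent play
avoiding `0`. -/
theorem exists_avoiding {u : A.V} (h : ¬ RA op A A.P u 1) (S : Strategy A) :
    ∃ e, S.Play u e ∧ ∀ t, runFrom op 1 (fun i => (e i).2.1) t ≠ 0 := by
  have key := exists_play S u (fun p v => ¬ RA op A A.P v (st op 1 p)) h ?_ ?_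
  · obtain ⟨e, he, hinv⟩ := key
    refine ⟨e, he, fun t h0 => ?_⟩
    apply hinv t
    rw [st_prefix, h0]
    exact RA_zero _
  · intro p v hp hi hv hr
    obtain ⟨h1, h2⟩ := S.valid u p v hp hv
    rw [st_snoc] at hr
    exact hi (RA_of_mem hv ⟨_, h1, h2, hr⟩)
  · intro p v hp hi hv
    by_contra hcon
    push Not at hcon
    apply hi
    apply RA_of_not_mem hv
    intro e he hs
    have := hcon e he hs
    rw [st_snoc] at this
    exact this

end

end Pool.Agent.KS6_70.MM
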