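import Pool.Agent.KS6_70.MM.Fork
set_option autoImplicit false

/-! # Two colours

The colour `c₀` decrements the counter. Every other colour sends `2` to `0` and `n ≠ 0, 2` to
`2 n + 1` if `n` is a square and to `2 n` otherwise. -/

namespace Pool.Agent.KS6_70.MM

/-- the doubling operation -/
noncomputable def dbl (n : ℕ) : ℕ :=
  open Classical in if n = 0 ∨ n = 2 then 0 else 2 * n + (if IsSquare n then 1 else 0)

theorem dbl_zero : dbl 0 = 0 := by simp [dbl]

theorem dbl_two : dbl 2 = 0 := by simp [dbl]

theorem dbl_sq {n : ℕ} (h0 : n ≠ 0) (h2 : n ≠ 2) (h : IsSquare n) : dbl n = 2 * n + 1 := by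
  rw [dbl, if_neg (by omega), if_pos h]

theorem dbl_nsq {n : ℕ} (h0 : n ≠ 0) (h2 : n ≠ 2) (h : ¬ IsSquare n) : dbl n = 2 * n := by
  rw [dbl, if_neg (by omega), if_neg h, Nat.add_zero]

theorem dbl_ge {n : ℕ} (h0 : n ≠ 0) (h2 : n ≠ 2) : 2 * n ≤ dbl n := by
  rw [dbl, if_neg (by omega)]
  omega

theorem dbl_le (n : ℕ) : dbl n ≤ 2 * n + 1 := by
  rw [dbl]
  split_ifs <;> omega

variable {C : Type}

/-- the counter operations -/
noncomputable def op2 (c₀ c : C) (n : ℕ) : ℕ := open Classical in if c = c₀ then n - 1 else dbl n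

theorem op2_zero (c₀ : C) : ∀ c, op2 c₀ c 0 = 0 := by
  intro c
  rw [op2]
  split_ifs
  · rfl
  · exact dbl_zero

theorem op2_c0 (c₀ : C) (n : ℕ) : op2 c₀ c₀ n = n - 1 := by
  rw [op2, if_pos rfl]

theorem op2_ne {c₀ c : C} (h : c ≠ c₀) (n : ℕ) : op2 c₀ c n = dbl n := by
  rw [op2, if_neg h]

theorem good2 (c₀ : C) : Good (op2 c₀) where
  zero := op2_zero c₀
  exp := by
    intro c i j hi hij
    by_cases h : c = c₀
    · subst h
      rw [op2_c0, op2_c0]
      omega
    · rw [op2_ne h, op2_ne h]
      by_cases h2 : i = 2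
      · left
        rw [h2, dbl_two]
      · right
        have := dbl_le i
        have := dbl_ge (n := j) (by omega) (by omega)
        omega

/-- iterates of the doubling operation grow -/
theorem iter_dbl_ge : ∀ t : ℕ, 1 ≤ t → t + 2 ≤ dbl^[t] 1
  | 0, h => by omega
  | 1, _ => by
      rw [Function.iterate_one, dbl_sq (by norm_num) (by norm_num) ⟨1, rfl⟩]
  | t + 2, _ => by
      rw [Function.iterate_succ_apply']
      have h1 := iter_dbl_ge (t + 1) (by omega)
      have h2 := dbl_ge (n := dbl^[t + 1] 1) (by omega) (by omega)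
      omega

theorem stw_dec (c₀ : C) : ∀ (j q : ℕ), stw (op2 c₀) q (List.replicate j c₀) = q - j
  | 0, q => rfl
  | j + 1, q => by
      rw [List.replicate_succ, stw_cons, op2_c0, stw_dec c₀ j (q - 1)]
      omega

theorem stw_dbl {c₀ c : C} (h : c ≠ c₀) : ∀ (j q : ℕ),
    stw (op2 c₀) q (List.replicate j c) = dbl^[j] q
  | 0, q => rfl
  | j + 1, q => by
      rw [List.replicate_succ, stw_cons, op2_ne h, stw_dbl h j (dbl q),
        Function.iterate_succ_apply]

theorem foldl_replicate {M : Type} (f : C → M → M) (c : C) : ∀ (j : ℕ) (x : M),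
    (List.replicate j c).foldl (fun x c => f c x) x = (f c)^[j] x
  | 0, x => rfl
  | j + 1, x => by
      rw [List.replicate_succ, List.foldl_cons, foldl_replicate f c j, Function.iterate_succ_apply]

theorem not_chr2 {c₀ c₁ : C} (hne : c₁ ≠ c₀) (k : ℕ) :
    ¬ ChrOK (safeW (op2 c₀)) k ∧ ¬ ChrOK (safeW (op2 c₀))ᶜ k := by
  obtain ⟨K, hK, hk, hK1⟩ : ∃ K, K = k.factorial ∧ k ≤ K ∧ 1 ≤ K :=
    ⟨_, rfl, Nat.self_le_factorial k, Nat.factorial_pos k⟩
  -- `X` is a large counter value reached by doubling
  obtain ⟨t, X, hX, hXt⟩ : ∃ t X, dbl^[t] 1 = X ∧ (K + 1) * (K + 1) + k ≤ X :=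
    ⟨(K + 1) * (K + 1) + k, _, rfl, by
      have := iter_dbl_ge ((K + 1) * (K + 1) + k) (by nlinarith)
      omega⟩
  obtain ⟨α, hα⟩ : ∃ α, X = (K + 1) * (K + 1) + α := ⟨X - (K + 1) * (K + 1), by omega⟩
  have hαk : k ≤ α := by omega
  have hsq : (K + 1) * (K + 1) = K * K + 2 * K + 1 := by ring
  have hKK : K ≤ K * K := Nat.le_mul_of_pos_left K hK1
  obtain ⟨N, hN⟩ : ∃ N, N + k = 2 * (K * K) + 2 * K + 2 := ⟨2 * (K * K) + 2 * K + 2 - k, by omega⟩
  have hN5 : 5 ≤ N := by omega
  have hnsq : ¬ IsSquare (K * K + K + 1) := by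
    rintro ⟨m, hm⟩
    rcases Nat.lt_or_ge K m with h2 | h2
    · have : (K + 1) * (K + 1) ≤ m * m := Nat.mul_le_mul h2 h2
      nlinarith
    · have : m * m ≤ K * K := Nat.mul_le_mul h2 h2
      omega
  have iter : ∀ (f : Fin k → Fin k) (x : Fin k) (n c : ℕ), k ≤ n → f^[n + K * c] x = f^[n] x := by
    intro f x n c hn
    rw [hK]
    exact iterate_aux f x hn c
  let φ : Bool → C := fun b => if b then c₁ else c₀
  have hφt : φ true = c₁ := rfl
  have hφf : φ false = c₀ := rfl
  have st1 : ∀ (l : List C), stw (op2 c₀) 1 (List.replicate t c₁ ++ l) = stw (op2 c₀) X l := by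
    intro l
    rw [stw_append, stw_dbl hne, hX]
  have hw1 : ∀ l : List C, stw (op2 c₀) 1
      ((List.replicate t true ++ List.replicate α false ++ true ::
        List.replicate (k + K * 2) false).map φ ++ l) = stw (op2 c₀) (N + 1) l := by
    intro l
    have e1 : (List.replicate t true ++ List.replicate α false ++ true ::
        List.replicate (k + K * 2) false).map φ ++ l = List.replicate t c₁ ++
        (List.replicate α c₀ ++ (c₁ :: (List.replicate (k + K * 2) c₀ ++ l))) := by
      simp [φ]
    rw [e1, st1, stw_append, stw_dec, stw_cons, op2_ne hne]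
    have e2 : X - α = (K + 1) * (K + 1) := by omega
    rw [e2, dbl_sq (by positivity) (by nlinarith) ⟨K + 1, rfl⟩, stw_append, stw_dec]
    congr 1
    omega
  have hw2 : ∀ l : List C, stw (op2 c₀) 1
      ((List.replicate t true ++ List.replicate (α + K * 1) false ++ true ::
        List.replicate k false).map φ ++ l) = stw (op2 c₀) N l := by
    intro l
    have e1 : (List.replicate t true ++ List.replicate (α + K * 1) false ++ true ::
        List.replicate k false).map φ ++ l = List.replicate t c₁ ++
        (List.replicate (α + K * 1) c₀ ++ (c₁ :: (List.replicate k c₀ ++ l))) := by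
      simp [φ]
    rw [e1, st1, stw_append, stw_dec, stw_cons, op2_ne hne]
    have e2 : X - (α + K * 1) = K * K + K + 1 := by omega
    rw [e2, dbl_nsq (by omega) (by omega) hnsq, stw_append, stw_dec]
    congr 1
    omega
  have hz : ∀ j q, stw (op2 c₀) q (φ false :: (List.replicate j false ++ [true]).map φ) =
      dbl (q - 1 - j) := by
    intro j q
    have e1 : (List.replicate j false ++ [true]).map φ = List.replicate j c₀ ++ [c₁] := by
      simp [φ]
    rw [e1, hφf, stw_cons, op2_c0, stw_append, stw_dec, stw_cons, op2_ne hne]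
    rfl
  apply fork_main (φ := φ) (op2 c₀) (op2_zero c₀) ?_ k
    (List.replicate t true ++ List.replicate α false ++ true ::
        List.replicate (k + K * 2) false)
    (List.replicate t true ++ List.replicate (α + K * 1) false ++ true ::
        List.replicate k false)
    (List.replicate (N - 2) false ++ [true]) (List.replicate (N - 3) false ++ [true])
  · intro h
    have := congrArg List.length h
    simp only [List.length_append, List.length_replicate, List.length_singleton] at this
    omega
  · rw [hw1, hz]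
    have : N + 1 - 1 - (N - 2) = 2 := by omega
    rw [this, dbl_two]
  · rw [hw1, hz]
    have : N + 1 - 1 - (N - 3) = 3 := by omega
    rw [this]
    have := dbl_ge (n := 3) (by norm_num) (by norm_num)
    omega
  · rw [hw2, hz]
    have : N - 1 - (N - 2) = 1 := by omega
    rw [this, dbl_sq (by norm_num) (by norm_num) ⟨1, rfl⟩]
  · rw [hw2, hz]
    have : N - 1 - (N - 3) = 2 := by omega
    rw [this, dbl_two]
  · intro f x
    have e1 : (List.replicate t true ++ List.replicate α false ++ true ::
        List.replicate (k + K * 2) false).map φ = List.replicate t c₁ ++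
        (List.replicate α c₀ ++ (c₁ :: List.replicate (k + K * 2) c₀)) := by
      simp [φ]
    have e2 : (List.replicate t true ++ List.replicate (α + K * 1) false ++ true ::
        List.replicate k false).map φ = List.replicate t c₁ ++
        (List.replicate (α + K * 1) c₀ ++ (c₁ :: List.replicate k c₀)) := by
      simp [φ]
    rw [e1, e2, List.foldl_append, List.foldl_append, List.foldl_append, List.foldl_append,
      List.foldl_cons, List.foldl_cons, foldl_replicate, foldl_replicate, foldl_replicate,
      foldl_replicate, foldl_replicate, iter _ _ _ _ hαk, iter _ _ _ _ le_rfl]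
  · intro n hn
    rw [hφt, op2_ne hne]
    have := dbl_ge (n := n) (by omega) (by omega)
    omega

end Pool.Agent.KS6_70.MM
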